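import Pool.Agent.H334R5.Ag.Main
import Pool.Agent.H545R2.KS.Sat

/-!
# If `NP ⊆ BPP` then threshold patterns can be avoided
-/

set_option autoImplicit false

namespace Pool.Agent.H334R5.Ag

open Pool.Agent.NPC
open Pool.Agent.H334R5.Cnt (usz bits_poly fpoly_of_poly)

/-- The answer for one sample: `0` if the test accepts, `1` otherwise. -/
def gg (V : List Bool → List Bool) (ℓ : Polynomial ℕ) (x r : List Bool) : ℕ :=
  if V (pairBits x (r.take (ℓ.eval x.length))) = [true] then 0 else 1

/-- The algorithm. -/
def avoid (V : List Bool → List Bool) (ℓ : Polynomial ℕ) (L : List (List Bool)) (r : List Bool) :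
    ℕ :=
  L.head?.elim 0 (fun x => winner (answers (gg V ℓ x) (ℓ.eval (sz L)) (72 * sz L) r) 1)

theorem gg_le (V : List Bool → List Bool) (ℓ : Polynomial ℕ) (x r : List Bool) :
    gg V ℓ x r ≤ 1 := by
  unfold gg
  split_ifs <;> omega

theorem avoid_poly {V : List Bool → List Bool} (hV : PolyTime V) (ℓ : Polynomial ℕ) :
    Poly (fun p : List (List Bool) × List Bool => avoid V ℓ p.1 p.2) := by
  have pV : Poly V := PIso.poly_iff.2 hV
  have hpb : Poly (fun q : List Bool × List Bool => pairBits q.1 q.2) := by
    unfold pairBits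
    fun_prop
  have hg : Poly (fun q : List Bool × List Bool => gg V ℓ q.1 q.2) := by
    unfold gg
    refine Poly.ite (Poly.decide_eq (pV.comp ?_) (NPC.Poly.const _)) (NPC.Poly.const _)
      (NPC.Poly.const _)
    refine Poly.comp (g := fun q : List Bool × List Bool => pairBits q.1 q.2)
      (f := fun q : List Bool × List Bool => (q.1, q.2.take (ℓ.eval q.1.length))) hpb
      (Poly.pair (Poly.fst Poly.id) (Clo.poly_take (Poly.snd Poly.id) ?_))
    exact ((UPoly.length (Poly.fst Poly.id)).eval ℓ).toPoly
  have uL : UPoly (fun p : (List (List Bool) × List Bool) × List Bool => sz p.1.1) :=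
    usz (Poly.fst (Poly.fst Poly.id))
  unfold avoid
  refine Poly.optElim (o := fun p : List (List Bool) × List Bool => p.1.head?)
    (g := fun _ => 0) (h := fun p x => winner (answers (gg V ℓ x) (ℓ.eval (sz p.1)) (72 * sz p.1)
      p.2) 1) (Poly.head? (Poly.fst Poly.id)) (NPC.Poly.const 0) ?_
  refine poly_winner ?_ (UPoly.const 1)
  unfold answers
  refine NPC.Poly.map (l := fun p : (List (List Bool) × List Bool) × List Bool =>
      List.range (72 * sz p.1.1))
    (F := fun (p : (List (List Bool) × List Bool) × List Bool) i =>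
      gg V ℓ p.2 ((p.1.2.drop (i * ℓ.eval (sz p.1.1))).take (ℓ.eval (sz p.1.1))))
    ((UPoly.const 72).mul uL).range ?_
  have hb : Poly (fun a : ((List (List Bool) × List Bool) × List Bool) × ℕ =>
      ℓ.eval (sz a.1.1.1)) := (uL.eval ℓ).toPoly.comp (Poly.fst Poly.id)
  exact Poly.comp (g := fun q : List Bool × List Bool => gg V ℓ q.1 q.2)
    (f := fun a : ((List (List Bool) × List Bool) × List Bool) × ℕ => (a.1.2,
      (a.1.1.2.drop (a.2 * ℓ.eval (sz a.1.1.1))).take (ℓ.eval (sz a.1.1.1)))) hg
    (Poly.pair (Poly.snd (Poly.fst Poly.id)) (Clo.poly_take (Clo.poly_drop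
      (Poly.snd (Poly.fst (Poly.fst Poly.id))) (Poly.mul (Poly.snd Poly.id) hb)) hb))

theorem antiGuesser_of_bpp {A : Set (List Bool)} (hA : InBPP A) :
    ∃ (q s ℓ : Polynomial ℕ) (R : List (List Bool) → List Bool → ℕ), AntiGuesser A q s ℓ R := by
  obtain ⟨V, ℓ, hV, hVA⟩ := hA
  refine ⟨1, 1, Polynomial.C 72 * Polynomial.X * ℓ, avoid V ℓ, ?_, ?_, ?_⟩
  · obtain ⟨F, hF, h⟩ := fpoly_of_poly (avoid_poly hV ℓ)
    exact ⟨F, hF, fun L r => h (L, r)⟩
  · intro L r
    unfold avoid
    cases L with
    | nil => simp
    | cons x L =>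
      simp only [List.head?_cons, Option.elim_some, List.length_cons]
      have := (winner_spec (answers (gg V ℓ x) (ℓ.eval (sz (x :: L))) (72 * sz (x :: L)) r) 1).1
      omega
  · intro L n k _ hq hpat
    cases L with
    | nil => simp at hq
    | cons x L =>
      set L' := x :: L with hL'
      have hxL : x.length ≤ sz L' := by
        have h1 := sz_le_of_mem (l := L') (a := x) (by simp [hL'])
        have h2 := length_lt_sz x
        omega
      have hle : ℓ.eval x.length ≤ ℓ.eval (sz L') := eval_mono ℓ hxL
      have hN : 0 < 72 * sz L' := by have := sz_pos L'; omega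
      -- the probability of a wrong sample
      have hPb : ∀ v : ℕ, Prob (ℓ.eval (sz L')) (fun r => gg V ℓ x r = v) =
          Prob (ℓ.eval x.length) (fun r => (if V (pairBits x r) = [true] then 0 else 1) = v) := by
        intro v
        rw [Prob_eq, Prob_eq, ← EE_take hle]
        rfl
      have hwrong : Prob (ℓ.eval x.length) (fun r => ¬ (V (pairBits x r) = [true] ↔ x ∈ A)) ≤
          1 / 3 := by
        rw [Prob_not]
        have := hVA x
        linarith
      have hm1 : (L'.length : ℝ) + 1 ≤ sz L' := by
        have := length_lt_sz L'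
        have h2 : L'.length + 1 ≤ sz L' := this
        exact_mod_cast h2
      have key : ∀ v : ℕ, v ≤ 1 → Prob (ℓ.eval (sz L')) (fun r => gg V ℓ x r = v) ≤ 1 / 3 →
          Prob (72 * sz L' * ℓ.eval (sz L')) (fun r => avoid V ℓ L' r = v) ≤
            (1 - 1 / (1 + 1)) / ((L'.length : ℝ) + 1) := by
        intro v _ hv
        have h1 := winner_prob (g := gg V ℓ x) (m := 1) (b := ℓ.eval (sz L')) (gg_le V ℓ x)
          (k := v) (s := 2) (by norm_num) (by norm_num; linarith) hN
        refine h1.trans ?_
        push_cast
        rw [div_le_div_iff₀ (by have := sz_pos L'; positivity) (by positivity)]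
        nlinarith
      have hsz : (bits L').length = sz L' := bits_length _
      rw [hsz]
      have e1 : (Polynomial.C 72 * Polynomial.X * ℓ).eval (sz L') = 72 * sz L' * ℓ.eval (sz L') := by
        simp only [Polynomial.eval_mul, Polynomial.eval_C, Polynomial.eval_X]
      rw [e1]
      simp only [Polynomial.eval_one, Nat.cast_one]
      have hle1 : ∀ r, avoid V ℓ L' r ≤ 1 := by
        intro r
        unfold avoid
        rw [hL']
        simp only [List.head?_cons, Option.elim_some]
        exact (winner_spec _ _).1
      rcases Nat.eq_zero_or_pos k with hk | hk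
      · -- the first string is not in `A`
        subst hk
        have hx : x ∉ A := hpat.2.2 x (by simp [hL'])
        refine key 0 (by norm_num) ?_
        rw [hPb]
        refine le_trans (Prob_mono fun r _ h => ?_) hwrong
        intro h'
        by_cases hV1 : V (pairBits x r) = [true]
        · exact hx (h'.1 hV1)
        · rw [if_neg hV1] at h
          exact absurd h (by norm_num)
      · have hx : x ∈ A := by
          refine hpat.2.1 x ?_
          obtain ⟨j, rfl⟩ := Nat.exists_eq_succ_of_ne_zero hk.ne'
          simp [hL']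
        rcases Nat.lt_or_ge 1 k with hk1 | hk1
        · -- impossible answer
          have h0 : Prob (72 * sz L' * ℓ.eval (sz L')) (fun r => avoid V ℓ L' r = k) = 0 := by
            rw [Prob_eq, ← EE_const 0 (72 * sz L' * ℓ.eval (sz L'))]
            refine EE_congr fun r _ => ind_false ?_
            have := hle1 r
            omega
          rw [h0]
          norm_num
          positivity
        · have hk2 : k = 1 := by omega
          subst hk2
          refine key 1 le_rfl ?_
          rw [hPb]
          refine le_trans (Prob_mono fun r _ h => ?_) hwrong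
          intro h'
          have hV1 := h'.2 hx
          rw [if_pos hV1] at h
          exact absurd h (by norm_num)

/-- The equivalence. -/
theorem antiGuess_iff :
    (∃ (A : Set (List Bool)) (q s ℓ : Polynomial ℕ) (R : List (List Bool) → List Bool → ℕ),
      NPHard A ∧ AntiGuesser A q s ℓ R) ↔ ∀ L : Set (List Bool), InNP L → InBPP L := by
  constructor
  · rintro ⟨A, q, s, ℓ, R, hA, hR⟩
    exact bpp_of_antiGuesser hA hR
  · intro h
    obtain ⟨h1, h2⟩ := Pool.Agent.NPC.H545KS.sat_complete
    obtain ⟨q, s, ℓ, R, hR⟩ := antiGuesser_of_bpp (h _ h1)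
    exact ⟨_, q, s, ℓ, R, h2, hR⟩

end Pool.Agent.H334R5.Ag
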