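import Mathlib

/-!
# Expectations over random bit strings
-/

set_option autoImplicit false

namespace Pool.Agent.H334R5.Ag

/-- The probability that a random bit string of length `N` satisfies `P`. -/
noncomputable def Prob (N : ℕ) (P : List Bool → Prop) : ℝ :=
  ({r : List Bool | r.length = N ∧ P r}.ncard : ℝ) / 2 ^ N

/-- The expectation of `f` over the bit strings of length `N`. -/
noncomputable def EE : ℕ → (List Bool → ℝ) → ℝ
  | 0, f => f []
  | N + 1, f => (EE N (fun r => f (false :: r)) + EE N (fun r => f (true :: r))) / 2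

theorem EE_congr : ∀ {N : ℕ} {f g : List Bool → ℝ}, (∀ r, r.length = N → f r = g r) →
    EE N f = EE N g
  | 0, f, g, h => h [] rfl
  | N + 1, f, g, h => by
    unfold EE
    rw [EE_congr (fun r hr => h (false :: r) (by simp [hr])),
      EE_congr (fun r hr => h (true :: r) (by simp [hr]))]

theorem EE_mono : ∀ {N : ℕ} {f g : List Bool → ℝ}, (∀ r, r.length = N → f r ≤ g r) →
    EE N f ≤ EE N g
  | 0, f, g, h => h [] rfl
  | N + 1, f, g, h => by
    unfold EE
    have h1 := EE_mono (N := N) (fun r hr => h (false :: r) (by simp [hr]))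
    have h2 := EE_mono (N := N) (fun r hr => h (true :: r) (by simp [hr]))
    linarith

theorem EE_const (c : ℝ) : ∀ N : ℕ, EE N (fun _ => c) = c
  | 0 => rfl
  | N + 1 => by
    unfold EE
    rw [EE_const c N]
    ring

theorem EE_add : ∀ (N : ℕ) (f g : List Bool → ℝ), EE N (fun r => f r + g r) = EE N f + EE N g
  | 0, f, g => rfl
  | N + 1, f, g => by
    unfold EE
    rw [EE_add N, EE_add N]
    ring

theorem EE_mul (c : ℝ) : ∀ (N : ℕ) (f : List Bool → ℝ), EE N (fun r => c * f r) = c * EE N f
  | 0, f => rfl
  | N + 1, f => by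
    unfold EE
    rw [EE_mul c N, EE_mul c N]
    ring

theorem EE_sub (N : ℕ) (f g : List Bool → ℝ) : EE N (fun r => f r - g r) = EE N f - EE N g := by
  have h1 : (fun r => f r - g r) = fun r => f r + (-1) * g r := by funext r; ring
  rw [h1, EE_add, EE_mul]
  ring

theorem EE_sum {ι : Type} (s : Finset ι) (N : ℕ) (f : ι → List Bool → ℝ) :
    EE N (fun r => ∑ i ∈ s, f i r) = ∑ i ∈ s, EE N (f i) := by
  classical
  induction s using Finset.induction_on with
  | empty => simp [EE_const]
  | insert a s ha ih =>
    simp only [Finset.sum_insert ha]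
    rw [EE_add, ih]

theorem EE_append : ∀ (N M : ℕ) (f : List Bool → ℝ),
    EE (N + M) f = EE N (fun r => EE M (fun r' => f (r ++ r')))
  | 0, M, f => by
    rw [Nat.zero_add]
    rfl
  | N + 1, M, f => by
    rw [show N + 1 + M = (N + M) + 1 by ring]
    unfold EE
    rw [EE_append N M, EE_append N M]
    rfl

theorem EE_take {N M : ℕ} (h : N ≤ M) (f : List Bool → ℝ) :
    EE M (fun r => f (r.take N)) = EE N f := by
  obtain ⟨K, rfl⟩ := Nat.exists_eq_add_of_le h
  rw [EE_append]
  refine EE_congr fun r hr => ?_
  have h1 : (fun r' : List Bool => f ((r ++ r').take N)) = fun _ => f r := by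
    funext r'
    rw [List.take_append_of_le_length (by omega), List.take_of_length_le (by omega)]
  rw [h1, EE_const]

open Classical in
theorem ncard_cons (N : ℕ) (P : List Bool → Prop) :
    {r : List Bool | r.length = N + 1 ∧ P r}.ncard =
      {r : List Bool | r.length = N ∧ P (false :: r)}.ncard +
        {r : List Bool | r.length = N ∧ P (true :: r)}.ncard := by
  have hfin : ∀ (Q : List Bool → Prop), {r : List Bool | r.length = N ∧ Q r}.Finite := fun Q =>
    (List.finite_length_eq Bool N).subset fun r hr => hr.1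
  have h1 : {r : List Bool | r.length = N + 1 ∧ P r} =
      (fun r => false :: r) '' {r : List Bool | r.length = N ∧ P (false :: r)} ∪
        (fun r => true :: r) '' {r : List Bool | r.length = N ∧ P (true :: r)} := by
    ext r
    simp only [Set.mem_setOf_eq, Set.mem_union, Set.mem_image]
    constructor
    · rintro ⟨hr, hP⟩
      cases r with
      | nil => simp at hr
      | cons b r =>
        simp only [List.length_cons, Nat.add_right_cancel_iff] at hr
        cases b
        · exact Or.inl ⟨r, ⟨hr, hP⟩, rfl⟩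
        · exact Or.inr ⟨r, ⟨hr, hP⟩, rfl⟩
    · rintro (⟨r', ⟨hr, hP⟩, rfl⟩ | ⟨r', ⟨hr, hP⟩, rfl⟩)
      · exact ⟨by simp [hr], hP⟩
      · exact ⟨by simp [hr], hP⟩
  rw [h1, Set.ncard_union_eq ?_ ((hfin _).image _) ((hfin _).image _),
    Set.ncard_image_of_injective _ (fun a b h => by simpa using h),
    Set.ncard_image_of_injective _ (fun a b h => by simpa using h)]
  rw [Set.disjoint_left]
  rintro r ⟨r1, -, rfl⟩ ⟨r2, -, h⟩
  simp at h

open Classical in
/-- The indicator of a proposition. -/
noncomputable def ind (p : Prop) : ℝ := if p then 1 else 0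

theorem ind_true {p : Prop} (h : p) : ind p = 1 := if_pos h
theorem ind_false {p : Prop} (h : ¬ p) : ind p = 0 := if_neg h
theorem ind_nonneg (p : Prop) : 0 ≤ ind p := by unfold ind; split_ifs <;> norm_num
theorem ind_le_one (p : Prop) : ind p ≤ 1 := by unfold ind; split_ifs <;> norm_num

open Classical in
theorem Prob_eq : ∀ (N : ℕ) (P : List Bool → Prop),
    Prob N P = EE N (fun r => ind (P r))
  | 0, P => by
    unfold Prob EE ind
    by_cases h : P []
    · have : {r : List Bool | r.length = 0 ∧ P r} = {[]} := by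
        ext r
        simp only [Set.mem_setOf_eq, List.length_eq_zero_iff, Set.mem_singleton_iff]
        exact ⟨fun h => h.1, fun h' => ⟨h', h' ▸ h⟩⟩
      rw [this]
      simp [h]
    · have : {r : List Bool | r.length = 0 ∧ P r} = ∅ := by
        ext r
        simp only [Set.mem_setOf_eq, List.length_eq_zero_iff, Set.mem_empty_iff_false, iff_false]
        rintro ⟨rfl, h'⟩
        exact h h'
      rw [this]
      simp [h]
  | N + 1, P => by
    unfold EE
    rw [← Prob_eq N, ← Prob_eq N]
    unfold Prob
    rw [ncard_cons]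
    push_cast
    rw [pow_succ]
    field_simp

open Classical in
theorem Prob_le_one (N : ℕ) (P : List Bool → Prop) : Prob N P ≤ 1 := by
  rw [Prob_eq, ← EE_const 1 N]
  exact EE_mono fun r _ => ind_le_one _

theorem Prob_mono {N : ℕ} {P Q : List Bool → Prop} (h : ∀ r, r.length = N → P r → Q r) :
    Prob N P ≤ Prob N Q := by
  rw [Prob_eq, Prob_eq]
  refine EE_mono fun r hr => ?_
  by_cases hP : P r
  · rw [ind_true hP, ind_true (h r hr hP)]
  · rw [ind_false hP]; exact ind_nonneg _

theorem Prob_not (N : ℕ) (P : List Bool → Prop) : Prob N (fun r => ¬ P r) = 1 - Prob N P := by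
  rw [Prob_eq, Prob_eq, ← EE_const 1 N, ← EE_sub]
  refine EE_congr fun r _ => ?_
  by_cases hP : P r
  · rw [ind_true hP, ind_false (not_not.2 hP)]; ring
  · rw [ind_false hP, ind_true hP]; ring

/-! ### Repeated sampling -/

/-- The sum of `Y` over the first `k` blocks of length `b`. -/
noncomputable def SS (Y : List Bool → ℝ) (b : ℕ) : ℕ → List Bool → ℝ
  | 0, _ => 0
  | k + 1, r => Y (r.take b) + SS Y b k (r.drop b)

theorem SS_succ (Y : List Bool → ℝ) (b k : ℕ) (r : List Bool) :
    SS Y b (k + 1) r = Y (r.take b) + SS Y b k (r.drop b) := rfl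

theorem SS_append {Y : List Bool → ℝ} {b k : ℕ} {r r' : List Bool} (hr : r.length = b) :
    SS Y b (k + 1) (r ++ r') = Y r + SS Y b k r' := by
  rw [SS_succ, List.take_append_of_le_length (by omega), List.take_of_length_le (by omega),
    List.drop_append_of_le_length (by omega), List.drop_of_length_le (by omega), List.nil_append]

theorem EE_SS (Y : List Bool → ℝ) (b : ℕ) : ∀ k : ℕ, EE (k * b) (SS Y b k) = k * EE b Y
  | 0 => by
    rw [Nat.zero_mul]
    simp [EE, SS]
  | k + 1 => by
    rw [show (k + 1) * b = b + k * b by ring, EE_append]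
    have h1 : EE b (fun r => EE (k * b) (fun r' => SS Y b (k + 1) (r ++ r'))) =
        EE b (fun r => Y r + k * EE b Y) := by
      refine EE_congr fun r hr => ?_
      have h2 : EE (k * b) (fun r' => SS Y b (k + 1) (r ++ r')) =
          EE (k * b) (fun r' => Y r + SS Y b k r') :=
        EE_congr fun r' _ => SS_append hr
      rw [h2, EE_add, EE_const, EE_SS Y b k]
    rw [h1, EE_add, EE_const]
    push_cast
    ring

theorem EE_sq (Y : List Bool → ℝ) (b : ℕ) (hY : ∀ r, |Y r| ≤ 1) : ∀ k : ℕ,
    EE (k * b) (fun r => (SS Y b k r - k * EE b Y) ^ 2) ≤ k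
  | 0 => by
    rw [Nat.zero_mul]
    simp [EE, SS]
  | k + 1 => by
    set μ := EE b Y with hμ
    rw [show (k + 1) * b = b + k * b by ring, EE_append]
    have h1 : EE b (fun r => EE (k * b) (fun r' => (SS Y b (k + 1) (r ++ r') -
        ((k + 1 : ℕ) : ℝ) * μ) ^ 2)) ≤ EE b (fun r => (Y r - μ) ^ 2 + k) := by
      refine EE_mono fun r hr => ?_
      have h2 : EE (k * b) (fun r' => (SS Y b (k + 1) (r ++ r') - ((k + 1 : ℕ) : ℝ) * μ) ^ 2) =
          EE (k * b) (fun r' => (Y r - μ) ^ 2 + (2 * (Y r - μ) * (SS Y b k r' - k * μ) +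
            (SS Y b k r' - k * μ) ^ 2)) := by
        refine EE_congr fun r' _ => ?_
        rw [SS_append hr]
        push_cast
        ring
      rw [h2, EE_add, EE_const, EE_add, EE_mul, EE_sub, EE_SS, EE_const, ← hμ, sub_self, mul_zero,
        zero_add]
      have := EE_sq Y b hY k
      linarith
    refine h1.trans ?_
    have h3 : EE b (fun r => (Y r - μ) ^ 2 + k) =
        EE b (fun r => Y r ^ 2 + (-(2 * μ)) * Y r + (μ ^ 2 + k)) :=
      EE_congr fun r _ => by ring
    rw [h3, EE_add, EE_add, EE_mul, EE_const, ← hμ]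
    have h4 : EE b (fun r => Y r ^ 2) ≤ 1 := by
      rw [← EE_const 1 b]
      refine EE_mono fun r _ => ?_
      have := hY r
      rw [abs_le] at this
      nlinarith
    push_cast
    nlinarith [sq_nonneg μ]

open Classical in
/-- Chebyshev's inequality for sums of independent samples with negative mean. -/
theorem chebyshev {Y : List Bool → ℝ} {b : ℕ} (hY : ∀ r, |Y r| ≤ 1) {γ : ℝ} (hγ : 0 < γ)
    (hμ : EE b Y ≤ -γ) {k : ℕ} (hk : 0 < k) :
    Prob (k * b) (fun r => 0 ≤ SS Y b k r) ≤ 1 / (k * γ ^ 2) := by
  have hk' : (0 : ℝ) < k := by exact_mod_cast hk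
  rw [Prob_eq]
  have h1 : EE (k * b) (fun r => ind (0 ≤ SS Y b k r)) ≤
      EE (k * b) (fun r => (1 / (k * γ) ^ 2) * (SS Y b k r - k * EE b Y) ^ 2) := by
    refine EE_mono fun r _ => ?_
    unfold ind
    split_ifs with h
    · have h2 : k * γ ≤ SS Y b k r - k * EE b Y := by nlinarith
      have h3 : (k * γ) ^ 2 ≤ (SS Y b k r - k * EE b Y) ^ 2 := by
        have : 0 < k * γ := by positivity
        nlinarith
      rw [one_div, ← div_eq_inv_mul, le_div_iff₀ (by positivity)]
      linarith
    · positivity
  refine h1.trans ?_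
  rw [EE_mul]
  have h2 := EE_sq Y b hY k
  calc 1 / (k * γ) ^ 2 * EE (k * b) (fun r => (SS Y b k r - k * EE b Y) ^ 2)
      ≤ 1 / (k * γ) ^ 2 * k := mul_le_mul_of_nonneg_left h2 (by positivity)
    _ = 1 / (k * γ ^ 2) := by field_simp

/-! ### Adaptive runs -/

/-- `T` steps, each with a fresh block of `β` random bits. -/
def runF {S : Type} (F : S → List Bool → S) (β : ℕ) : ℕ → S → List Bool → S
  | 0, s, _ => s
  | T + 1, s, r => runF F β T (F s (r.take β)) (r.drop β)

theorem runF_succ {S : Type} (F : S → List Bool → S) (β T : ℕ) (s : S) (r : List Bool) :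
    runF F β (T + 1) s r = runF F β T (F s (r.take β)) (r.drop β) := rfl

open Classical in
theorem run_bound {S : Type} (F : S → List Bool → S) (β : ℕ) (good : S → Prop) (η : ℝ)
    (hη : ∀ s, good s → Prob β (fun r => ¬ good (F s r)) ≤ η) : ∀ (T : ℕ) (s : S), good s →
      Prob (T * β) (fun r => ¬ good (runF F β T s r)) ≤ T * η
  | 0, s, hs => by
    rw [Nat.zero_mul, Prob_eq]
    simp [EE, runF, hs, ind]
  | T + 1, s, hs => by
    have hη0 : 0 ≤ η := by
      refine le_trans ?_ (hη s hs)
      unfold Prob
      positivity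
    rw [show (T + 1) * β = β + T * β by ring, Prob_eq, EE_append]
    have h1 : EE β (fun r => EE (T * β) (fun r' =>
        ind (¬ good (runF F β (T + 1) s (r ++ r'))))) ≤
          EE β (fun r => ind (¬ good (F s r)) + T * η) := by
      refine EE_mono fun r hr => ?_
      have h2 : EE (T * β) (fun r' => ind (¬ good (runF F β (T + 1) s (r ++ r'))))
          = Prob (T * β) (fun r' => ¬ good (runF F β T (F s r) r')) := by
        rw [Prob_eq]
        refine EE_congr fun r' _ => ?_
        rw [runF_succ, List.take_append_of_le_length (by omega), List.take_of_length_le (by omega),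
          List.drop_append_of_le_length (by omega), List.drop_of_length_le (by omega),
          List.nil_append]
      rw [h2]
      by_cases hg : good (F s r)
      · rw [ind_false (not_not.2 hg), zero_add]
        exact run_bound F β good η hη T _ hg
      · rw [ind_true hg]
        have := Prob_le_one (T * β) (fun r' => ¬ good (runF F β T (F s r) r'))
        have : (0 : ℝ) ≤ T * η := by positivity
        linarith
    refine h1.trans ?_
    rw [EE_add, EE_const, ← Prob_eq]
    have := hη s hs
    push_cast
    linarith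

end Pool.Agent.H334R5.Ag
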