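import Pool.Agent.NPC.Dec
import Pool.Agent.H334R5.Ag.Prob

/-!
# BPP, and guessing a wrong threshold pattern
-/

set_option autoImplicit false

namespace Pool.Agent.H334R5.Ag

open Pool.Agent.NPC

/-- The class `BPP`: languages with a polynomial-time test which, for every `x`, is correct with
probability at least `2/3` over the random bit string `r` of polynomial length. -/
def InBPP (L : Set (List Bool)) : Prop :=
  ∃ (V : List Bool → List Bool) (ℓ : Polynomial ℕ), PolyTime V ∧
    ∀ x, 2 / 3 ≤ Prob (ℓ.eval x.length) (fun r => V (pairBits x r) = [true] ↔ x ∈ L)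

/-- The list `L = x₁, …, xₘ` has the threshold pattern `k` for the set `A`: the strings
`x₁, …, xₖ` are in `A`, and the strings `xₖ₊₁, …, xₘ` are not in `A`. -/
def Pattern (A : Set (List Bool)) (L : List (List Bool)) (k : ℕ) : Prop :=
  k ≤ L.length ∧ (∀ x ∈ L.take k, x ∈ A) ∧ ∀ x ∈ L.drop k, x ∉ A

/-- A randomised polynomial-time algorithm `R` (with `ℓ` random bits) which, given a list of `m`
strings of length at most `n`, where `m ≥ q(n)`, outputs a number `k` with `0 ≤ k ≤ m`, such that
the probability that the list has the threshold pattern `k` for `A` is at most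
`(1 - 1 / (s + 1)) / (m + 1)`, where `s` is a polynomial in the length of the input. (Nothing is
required for a list without threshold pattern. A random number `k` would hit the threshold pattern
with probability `1 / (m + 1)`.) -/
structure AntiGuesser (A : Set (List Bool)) (q s ℓ : Polynomial ℕ)
    (R : List (List Bool) → List Bool → ℕ) : Prop where
  poly : ∃ F : List Bool → List Bool, PolyTime F ∧
    ∀ (L : List (List Bool)) (r : List Bool), F (bits (L, r)) = bits (R L r)
  le : ∀ L r, R L r ≤ L.length
  better : ∀ (L : List (List Bool)) (n k : ℕ), (∀ x ∈ L, x.length ≤ n) → q.eval n ≤ L.length →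
    Pattern A L k → Prob (ℓ.eval (bits L).length) (fun r => R L r = k) ≤
      (1 - 1 / (((s.eval (bits L).length : ℕ) : ℝ) + 1)) / ((L.length : ℝ) + 1)

end Pool.Agent.H334R5.Ag
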