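import Pool.Agent.H334R5.Ag.Search
import Pool.Agent.H334R5.Clo.Main
import Pool.Agent.H334R5.Cnt.PolyPart1

/-!
# Guessing wrong threshold patterns better than at random puts `NP` into `BPP`
-/

set_option autoImplicit false

namespace Pool.Agent.H334R5.Ag

open Pool.Agent.NPC
open Pool.Agent.H251R5.PQ (Ver t_PAD)
open Pool.Agent.H334R5.Clo (num ext Left)
open Pool.Agent.H334R5.Cnt (usz bits_poly)

section PolyPart

variable {α : Type} [TEnc α]

theorem poly_cnt {k : α → ℕ} {a : α → List ℕ} (hk : Poly k) (ha : Poly a) :
    Poly (fun x => cnt (k x) (a x)) := by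
  unfold cnt
  refine Poly.length (Poly.filter (l := a) (p := fun x j => decide (j = k x)) ha ?_)
  exact Poly.decide_eq (Poly.snd Poly.id) (hk.comp (Poly.fst Poly.id))

theorem poly_winner {a : α → List ℕ} {m : α → ℕ} (ha : Poly a) (hm : UPoly m) :
    Poly (fun x => winner (a x) (m x)) := by
  unfold winner
  have hr : Poly (fun x => List.range (m x + 1)) := (hm.add (UPoly.const 1)).range
  refine Poly.optGetD (Poly.head? (Poly.filter (l := fun x => List.range (m x + 1))
    (p := fun x k => (List.range (m x + 1)).all (fun j => decide (cnt j (a x) ≤ cnt k (a x))))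
    hr ?_)) (NPC.Poly.const 0)
  refine Poly.all (l := fun p : α × ℕ => List.range (m p.1 + 1))
    (p := fun (p : α × ℕ) j => decide (cnt j (a p.1) ≤ cnt p.2 (a p.1)))
    (hr.comp (Poly.fst Poly.id)) ?_
  have ha' : Poly (fun p : (α × ℕ) × ℕ => a p.1.1) := ha.comp (Poly.fst (Poly.fst Poly.id))
  exact Poly.decide_le (poly_cnt (Poly.snd Poly.id) ha')
    (poly_cnt (Poly.snd (Poly.fst Poly.id)) ha')

theorem poly_qry {f : List Bool → List Bool}
    (hf : Poly (fun z : List Bool × List Bool => f (bits z))) {x : α → List Bool}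
    {C : α → List (List Bool)} (hx : Poly x) (hC : Poly C) :
    Poly (fun a => qry f (x a) (C a)) := by
  unfold qry
  refine NPC.Poly.map (l := fun a => (C a).tail) (F := fun a u => f (bits (x a, u)))
    (Poly.tail hC) ?_
  exact Poly.comp (g := fun z : List Bool × List Bool => f (bits z))
    (f := fun p : α × List Bool => (x p.1, p.2)) hf
    (Poly.pair (hx.comp (Poly.fst Poly.id)) (Poly.snd Poly.id))

theorem poly_stepC {f : List Bool → List Bool} {R : List (List Bool) → List Bool → ℕ}
    {ℓ : Polynomial ℕ} (hf : Poly (fun z : List Bool × List Bool => f (bits z)))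
    (hR : Poly (fun p : List (List Bool) × List Bool => R p.1 p.2))
    {M N b : α → ℕ} {x : α → List Bool} {s : α → ℕ × List (List Bool)} {r : α → List Bool}
    (hM : Poly M) (hN : UPoly N) (hb : Poly b) (hx : Poly x) (hs : Poly s) (hr : Poly r) :
    Poly (fun a => stepC f R ℓ (M a) (N a) (b a) (x a) (s a) (r a)) := by
  have hC : Poly (fun a => (s a).2) := Poly.snd hs
  have hQ : Poly (fun a => qry f (x a) (s a).2) := poly_qry hf hx hC
  have hℓ : Poly (fun a => ℓ.eval (bits (qry f (x a) (s a).2)).length) :=
    ((usz hQ).eval ℓ).toPoly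
  have hans : Poly (fun a => answers (fun r' => R (qry f (x a) (s a).2)
      (r'.take (ℓ.eval (bits (qry f (x a) (s a).2)).length))) (b a) (N a) (r a)) := by
    unfold answers
    refine NPC.Poly.map (l := fun a => List.range (N a)) (F := fun a i =>
      R (qry f (x a) (s a).2) ((((r a).drop (i * b a)).take (b a)).take
        (ℓ.eval (bits (qry f (x a) (s a).2)).length))) hN.range ?_
    refine Poly.comp (g := fun p : List (List Bool) × List Bool => R p.1 p.2)
      (f := fun p : α × ℕ => (qry f (x p.1) (s p.1).2,
        (((r p.1).drop (p.2 * b p.1)).take (b p.1)).take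
          (ℓ.eval (bits (qry f (x p.1) (s p.1).2)).length))) hR
      (Poly.pair (hQ.comp (Poly.fst Poly.id)) ?_)
    refine Clo.poly_take (Clo.poly_take (Clo.poly_drop (hr.comp (Poly.fst Poly.id)) ?_)
      (hb.comp (Poly.fst Poly.id))) (hℓ.comp (Poly.fst Poly.id))
    exact Poly.mul (Poly.snd Poly.id) (hb.comp (Poly.fst Poly.id))
  have hw := poly_winner hans (UPoly.length hQ)
  unfold stepC
  refine Poly.ite (Poly.decide_lt hM (Poly.length hC)) ?_ (Poly.ite
    (Poly.decide_eq (Poly.fst hs) (NPC.Poly.const 0)) hs ?_)
  · refine Poly.pair (Poly.fst hs) (Poly.append (Clo.poly_take hC hw)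
      (Clo.poly_drop hC (Poly.add hw (NPC.Poly.const 1))))
  · exact Poly.pair (Poly.sub (Poly.fst hs) (NPC.Poly.const 1)) (Clo.poly_ext hC)

end PolyPart

theorem foldl_eq_runF {S : Type} (F : S → List Bool → S) (β : ℕ) : ∀ (T : ℕ) (s : S)
    (r : List Bool), (List.range T).foldl (fun s t => F s ((r.drop (t * β)).take β)) s =
      runF F β T s r
  | 0, s, r => rfl
  | T + 1, s, r => by
    rw [runF_succ, ← foldl_eq_runF F β T, List.range_succ_eq_map, List.foldl_cons,
      List.foldl_map]
    simp only [Nat.zero_mul, List.drop_zero]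
    congr 1
    funext s' t
    rw [List.drop_drop]
    congr 3
    simp only [Nat.succ_eq_add_one]
    ring

/-- One direction. -/
theorem bpp_of_antiGuesser {A : Set (List Bool)} {q s ℓ : Polynomial ℕ}
    {R : List (List Bool) → List Bool → ℕ} (hA : NPHard A) (hR : AntiGuesser A q s ℓ R) :
    ∀ L : Set (List Bool), InNP L → InBPP L := by
  intro L hL
  obtain ⟨V, hV⟩ := t_PAD L hL
  obtain ⟨f, hf0, hfA⟩ := hA _ (Clo.left_inNPP V)
  have pf : Poly (fun z : List Bool × List Bool => f (bits z)) :=
    (PIso.poly_iff.2 hf0).comp bits_poly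
  have hf : ∀ x u : List Bool, (f (bits (x, u)) ∈ A ↔ Left V (x, u)) := fun x u => by
    rw [← hfA, bits_mem_lang]
  have pR : Poly (fun p : List (List Bool) × List Bool => R p.1 p.2) := by
    obtain ⟨F, hF, hFR⟩ := hR.poly
    exact Cnt.FPoly.poly ⟨F, hF, fun p => hFR p.1 p.2⟩
  -- the polynomials
  obtain ⟨qn, hqn⟩ := V.hn.sz_le
  obtain ⟨qf, hqf⟩ := pf.sz_le
  set pV : Polynomial ℕ := qn.comp (Polynomial.C 4 * Polynomial.X + Polynomial.C 1) with hpV
  set nn : Polynomial ℕ := qf.comp (Polynomial.C 4 * Polynomial.X + Polynomial.C 4 * pV +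
    Polynomial.C 3) with hnn
  set MM : Polynomial ℕ := q.comp nn + Polynomial.C 1 with hMM
  set BB : Polynomial ℕ := Polynomial.C 2 * MM * (Polynomial.C 4 * nn + Polynomial.C 2) +
    Polynomial.C 1 with hBB
  set bb : Polynomial ℕ := ℓ.comp BB with hbb
  set TT : Polynomial ℕ := pV * (MM + Polynomial.C 1) + Polynomial.C 2 with hTT
  set ss : Polynomial ℕ := s.comp BB with hss
  set NN : Polynomial ℕ := Polynomial.C 3 * TT * ((ss + Polynomial.C 1) * (Polynomial.C 2 * MM)) ^ 2
    with hNN
  have eMM : ∀ k, MM.eval k = q.eval (nn.eval k) + 1 := fun k => by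
    rw [hMM]; simp only [Polynomial.eval_add, Polynomial.eval_comp, Polynomial.eval_C]
  have eBB : ∀ k, BB.eval k = 2 * MM.eval k * (4 * nn.eval k + 2) + 1 := fun k => by
    rw [hBB]; simp only [Polynomial.eval_add, Polynomial.eval_mul, Polynomial.eval_C]
  have ebb : ∀ k, bb.eval k = ℓ.eval (BB.eval k) := fun k => by
    rw [hbb, Polynomial.eval_comp]
  have eTT : ∀ k, TT.eval k = pV.eval k * (MM.eval k + 1) + 2 := fun k => by
    rw [hTT]; simp only [Polynomial.eval_add, Polynomial.eval_mul, Polynomial.eval_C]
  have ess : ∀ k, ss.eval k = s.eval (BB.eval k) := fun k => by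
    rw [hss, Polynomial.eval_comp]
  have eNN : ∀ k, NN.eval k = 3 * TT.eval k * ((ss.eval k + 1) * (2 * MM.eval k)) ^ 2 :=
    fun k => by
      rw [hNN]
      simp only [Polynomial.eval_add, Polynomial.eval_mul, Polynomial.eval_C, Polynomial.eval_pow]
  have hVn : ∀ x : List Bool, V.n x ≤ pV.eval x.length := by
    intro x
    have h1 := hqn x
    have h2 := length_lt_sz (List.replicate (V.n x) ())
    rw [List.length_replicate] at h2
    have h3 : sz x ≤ 4 * x.length + 1 := sz_listBool_le x
    have h4 := eval_mono qn h3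
    rw [hpV, Polynomial.eval_comp]
    simp only [Polynomial.eval_add, Polynomial.eval_mul, Polynomial.eval_C, Polynomial.eval_X]
    omega
  have hfn : ∀ x u : List Bool, u.length ≤ V.n x →
      (f (bits (x, u))).length ≤ nn.eval x.length := by
    intro x u hu
    have h1 := hqf (x, u)
    have h2 := length_lt_sz (f (bits (x, u)))
    have h3 : sz ((x, u) : List Bool × List Bool) ≤ 4 * x.length + 4 * pV.eval x.length + 3 := by
      have e1 := sz_listBool_le x
      have e2 := sz_listBool_le u
      have e3 := hVn x
      rw [sz_pair]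
      omega
    have h4 := eval_mono qf h3
    rw [hnn, Polynomial.eval_comp]
    simp only [Polynomial.eval_add, Polynomial.eval_mul, Polynomial.eval_C, Polynomial.eval_X]
    omega
  have hBn : ∀ x : List Bool, ∀ C : List (List Bool), (∀ u ∈ C, u.length ≤ V.n x) →
      C.length ≤ 2 * MM.eval x.length → (bits (qry f x C)).length ≤ BB.eval x.length := by
    intro x C hC hCl
    rw [bits_length, eBB]
    have h1 := sz_le_length_mul (qry f x C) (4 * nn.eval x.length + 1) (by
      intro y hy
      rw [qry, List.mem_map] at hy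
      obtain ⟨u, hu, rfl⟩ := hy
      have e1 := hfn x u (hC u (List.mem_of_mem_tail hu))
      have e2 := sz_listBool_le (f (bits (x, u)))
      omega)
    have h2 : (qry f x C).length ≤ 2 * MM.eval x.length := by
      rw [qry_length]; omega
    have h3 := Nat.mul_le_mul_right (4 * nn.eval x.length + 2) h2
    have h4 : 4 * nn.eval x.length + 1 + 1 = 4 * nn.eval x.length + 2 := by ring
    rw [h4] at h1
    omega
  have hM1 : ∀ k, 1 ≤ MM.eval k := fun k => by rw [eMM]; omega
  have hNpos : ∀ k, 0 < NN.eval k := fun k => by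
    rw [eNN]
    have := hM1 k
    have h2 : 0 < TT.eval k := by rw [eTT]; omega
    positivity
  -- the run
  set F : List Bool → ℕ × List (List Bool) → List Bool → ℕ × List (List Bool) := fun x =>
    stepC f R ℓ (MM.eval x.length) (NN.eval x.length) (bb.eval x.length) x with hF
  set fin : List Bool → List Bool → ℕ × List (List Bool) := fun x r =>
    (List.range (TT.eval x.length)).foldl (fun s t => F x s
      ((r.drop (t * (NN.eval x.length * bb.eval x.length))).take
        (NN.eval x.length * bb.eval x.length))) (V.n x, [[]]) with hfin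
  have hinit : ∀ x : List Bool, Shape V x (MM.eval x.length) (V.n x, [[]]) := by
    intro x
    have := hM1 x.length
    refine ⟨le_rfl, ?_, by simp, by simp; omega⟩
    intro u hu
    simp only [List.mem_singleton] at hu
    subst hu
    simp
  have hshape : ∀ x r, Shape V x (MM.eval x.length) (fin x r) := by
    intro x r
    rw [hfin]
    simp only
    rw [foldl_eq_runF]
    exact runF_shape (hM1 _) _ _ _ (hinit x)
  have hrem : ∀ x r, (fin x r).1 = 0 := by
    intro x r
    rw [hfin]
    simp only
    rw [foldl_eq_runF]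
    refine runF_rem _ _ _ ?_
    unfold pot
    simp only [List.length_cons, List.length_nil]
    rw [eTT]
    have := Nat.mul_le_mul_right (MM.eval x.length + 1) (hVn x)
    omega
  -- the run is polynomial
  have uX : ∀ (P : Polynomial ℕ), UPoly (fun z : List Bool × List Bool => P.eval z.1.length) :=
    fun P => (UPoly.length (Poly.fst Poly.id)).eval P
  obtain ⟨qv, hqv⟩ := (V.hn.comp (Poly.fst (α := List Bool × List Bool) Poly.id)).sz_le
  obtain ⟨qm, hqm⟩ := (uX MM).sz_le
  have pfin : Poly (fun z : List Bool × List Bool => fin z.1 z.2) := by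
    rw [hfin]
    refine Poly.foldl (l := fun z : List Bool × List Bool => List.range (TT.eval z.1.length))
      (s := fun z : List Bool × List Bool => ((V.n z.1, [[]]) : ℕ × List (List Bool)))
      (F := fun z s t => F z.1 s ((z.2.drop (t * (NN.eval z.1.length * bb.eval z.1.length))).take
        (NN.eval z.1.length * bb.eval z.1.length))) (uX TT).range
      (Poly.pair (V.hn.toPoly.comp (Poly.fst Poly.id)) (NPC.Poly.const _)) ?_
      ((Polynomial.C 4 * qv + Polynomial.C 1) + (Polynomial.C 2 * qm *
        (Polynomial.C 4 * qv + Polynomial.C 2) + Polynomial.C 1) + Polynomial.C 1) ?_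
    · rw [hF]
      refine poly_stepC pf pR (α := (List Bool × List Bool) × (ℕ × List (List Bool)) × ℕ)
        (M := fun a => MM.eval a.1.1.length) (N := fun a => NN.eval a.1.1.length)
        (b := fun a => bb.eval a.1.1.length) (x := fun a => a.1.1) (s := fun a => a.2.1)
        (r := fun a => (a.1.2.drop (a.2.2 * (NN.eval a.1.1.length * bb.eval a.1.1.length))).take
          (NN.eval a.1.1.length * bb.eval a.1.1.length))
        ((uX MM).toPoly.comp (Poly.fst Poly.id)) ((uX NN).comp (Poly.fst Poly.id))
        ((uX bb).toPoly.comp (Poly.fst Poly.id)) (Poly.fst (Poly.fst Poly.id))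
        (Poly.fst (Poly.snd Poly.id)) ?_
      have hβ : Poly (fun a : (List Bool × List Bool) × (ℕ × List (List Bool)) × ℕ =>
          NN.eval a.1.1.length * bb.eval a.1.1.length) :=
        Poly.mul ((uX NN).toPoly.comp (Poly.fst Poly.id)) ((uX bb).toPoly.comp (Poly.fst Poly.id))
      exact Clo.poly_take (Clo.poly_drop (Poly.snd (Poly.fst Poly.id))
        (Poly.mul (Poly.snd (Poly.snd Poly.id)) hβ)) hβ
    · intro z k hk
      have hsh : Shape V z.1 (MM.eval z.1.length) (((List.range (TT.eval z.1.length)).take k).foldl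
          (fun s t => F z.1 s ((z.2.drop (t * (NN.eval z.1.length * bb.eval z.1.length))).take
            (NN.eval z.1.length * bb.eval z.1.length))) (V.n z.1, [[]])) := by
        generalize (List.range (TT.eval z.1.length)).take k = l
        have : ∀ (l : List ℕ) (s : ℕ × List (List Bool)), Shape V z.1 (MM.eval z.1.length) s →
            Shape V z.1 (MM.eval z.1.length) (l.foldl (fun s t => F z.1 s
              ((z.2.drop (t * (NN.eval z.1.length * bb.eval z.1.length))).take
              (NN.eval z.1.length * bb.eval z.1.length))) s) := by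
          intro l
          induction l with
          | nil => intro s hs; exact hs
          | cons t l ih =>
            intro s hs
            rw [List.foldl_cons]
            exact ih _ (stepC_shape (hM1 _) hs _)
        exact this l _ (hinit z.1)
      generalize ((List.range (TT.eval z.1.length)).take k).foldl
          (fun s t => F z.1 s ((z.2.drop (t * (NN.eval z.1.length * bb.eval z.1.length))).take
            (NN.eval z.1.length * bb.eval z.1.length))) (V.n z.1, [[]]) = st at hsh ⊢
      obtain ⟨a, C⟩ := st
      have e1 : sz (List.replicate (V.n z.1) ()) ≤ qv.eval (sz z) := hqv z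
      have e2 : sz (List.replicate (MM.eval z.1.length) ()) ≤ qm.eval (sz z) := hqm z
      have e3 := length_lt_sz (List.replicate (V.n z.1) ())
      have e4 := length_lt_sz (List.replicate (MM.eval z.1.length) ())
      rw [List.length_replicate] at e3 e4
      have e5 : V.n z.1 ≤ qv.eval (sz z) := by omega
      have e6 : MM.eval z.1.length ≤ qm.eval (sz z) := by omega
      have h1 : a ≤ V.n z.1 := hsh.rem
      have h2 : C.length ≤ 2 * MM.eval z.1.length := hsh.short
      have h3 : sz a ≤ 4 * a + 1 := by
        have e7 := sz_nat_le a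
        have e8 := Poly.size_le_self a
        omega
      have h4 := sz_le_length_mul C (4 * V.n z.1 + 1) (by
        intro u hu
        have e7 := hsh.len u hu
        have e8 := sz_listBool_le u
        omega)
      have h5 : C.length * (4 * V.n z.1 + 1 + 1) ≤
          2 * qm.eval (sz z) * (4 * qv.eval (sz z) + 2) := Nat.mul_le_mul (by omega) (by omega)
      simp only [Polynomial.eval_add, Polynomial.eval_mul, Polynomial.eval_C]
      rw [sz_pair]
      omega
  have pacc : Poly (fun y : List Bool => [(fin (unpair y).1 (unpair y).2).2.any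
      (fun w => V.V (unpair y).1 w)]) := by
    have h0 : Poly (fun y : List Bool => fin (unpair y).1 (unpair y).2) :=
      Poly.comp (g := fun z : List Bool × List Bool => fin z.1 z.2) pfin poly_unpair
    refine Poly.cons (Poly.any (l := fun y : List Bool => (fin (unpair y).1 (unpair y).2).2)
      (p := fun y w => V.V (unpair y).1 w) (Poly.snd h0) ?_) (NPC.Poly.const [])
    exact Poly.comp (g := fun t : List Bool × List Bool => V.V t.1 t.2)
      (f := fun p : List Bool × List Bool => ((unpair p.1).1, p.2)) V.hV
      (Poly.pair (Poly.fst (poly_unpair.comp (Poly.fst Poly.id))) (Poly.snd Poly.id))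
  refine ⟨_, TT * (NN * bb), PIso.poly_iff.1 pacc, fun x => ?_⟩
  simp only [unpair_pairBits]
  have hacc : ∀ r, ([(fin x r).2.any (fun w => V.V x w)] = [true]) ↔
      ∃ w ∈ (fin x r).2, V.V x w = true := by
    intro r
    simp
  simp only [hacc]
  by_cases hx : x ∈ L
  · have hw0 := (hV x).1 hx
    obtain ⟨w, ⟨hw, hVw⟩, hmax⟩ : ∃ w : List Bool, (w.length = V.n x ∧ V.V x w = true) ∧
        ∀ w' : List Bool, (w'.length = V.n x ∧ V.V x w' = true) → num w' ≤ num w := by
      have hfinite : {w : List Bool | w.length = V.n x ∧ V.V x w = true}.Finite :=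
        (List.finite_length_eq Bool (V.n x)).subset (fun w hw => hw.1)
      obtain ⟨w, hw, hmax⟩ := Set.exists_max_image _ num hfinite hw0
      exact ⟨w, hw, fun w' hw' => hmax w' hw'⟩
    have hmax' : ∀ w' : List Bool, w'.length = V.n x → V.V x w' = true → num w' ≤ num w :=
      fun w' h h' => hmax w' ⟨h, h'⟩
    set η : ℝ := ((((s.eval (BB.eval x.length) : ℕ) : ℝ) + 1) * (2 * (MM.eval x.length : ℕ))) ^ 2 /
      (NN.eval x.length : ℕ) with hη
    have hrun := run_bound (F x) (NN.eval x.length * bb.eval x.length)
      (fun s => Shape V x (MM.eval x.length) s ∧ Mem V x s) η (by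
        rintro st ⟨h1, h2⟩
        have h3 := stepC_good hR (hf x) (hfn x) (M := MM.eval x.length) (by rw [eMM]; omega)
          (hNpos x.length) (hBn x) (le_of_eq (ebb x.length).symm) h1 h2
        refine le_trans (Prob_mono fun r _ hr => ?_) h3
        intro hmem
        exact hr ⟨stepC_shape (hM1 _) h1 r, hmem⟩) (TT.eval x.length) (V.n x, [[]])
      ⟨hinit x, fun w _ _ _ => by simp⟩
    have hTη : (TT.eval x.length : ℕ) * η ≤ 1 / 3 := by
      have hT0 : (0 : ℝ) < (TT.eval x.length : ℕ) := by
        have : 0 < TT.eval x.length := by rw [eTT]; omega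
        exact_mod_cast this
      have hM0 : (0 : ℝ) < (MM.eval x.length : ℕ) := by
        have : 0 < MM.eval x.length := hM1 _
        exact_mod_cast this
      rw [hη, eNN, ess]
      push_cast
      rw [mul_div_assoc', div_le_iff₀ (by positivity)]
      apply le_of_eq
      ring
    have hbad := hrun.trans hTη
    have hevent : Prob (TT.eval x.length * (NN.eval x.length * bb.eval x.length))
        (fun r => ¬ ((∃ w ∈ (fin x r).2, V.V x w = true) ↔ x ∈ L)) ≤ 1 / 3 := by
      refine le_trans (Prob_mono fun r _ hr => ?_) hbad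
      rintro ⟨-, hmem⟩
      apply hr
      refine ⟨fun _ => hx, fun _ => ?_⟩
      have h1 : fin x r = runF (F x) (NN.eval x.length * bb.eval x.length) (TT.eval x.length)
          (V.n x, [[]]) r := by
        rw [hfin]; exact foldl_eq_runF _ _ _ _ _
      rw [← h1] at hmem
      have h2 := hmem w hw hVw hmax'
      rw [hrem, Nat.sub_zero, ← hw, List.take_length] at h2
      exact ⟨w, h2, hVw⟩
    rw [Prob_not] at hevent
    have e : (TT * (NN * bb)).eval x.length =
        TT.eval x.length * (NN.eval x.length * bb.eval x.length) := by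
      simp only [Polynomial.eval_mul]
    rw [e]
    linarith
  · have hno : ∀ r, ((∃ w ∈ (fin x r).2, V.V x w = true) ↔ x ∈ L) := by
      intro r
      refine ⟨?_, fun h => absurd h hx⟩
      rintro ⟨w, hw, hVw⟩
      rw [hV x]
      refine ⟨w, ?_, hVw⟩
      have := (hshape x r).len w hw
      rw [hrem] at this
      omega
    have : Prob ((TT * (NN * bb)).eval x.length)
        (fun r => (∃ w ∈ (fin x r).2, V.V x w = true) ↔ x ∈ L) = 1 := by
      rw [Prob_eq, ← EE_const 1 ((TT * (NN * bb)).eval x.length)]
      exact EE_congr fun r _ => ind_true (hno r)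
    rw [this]
    norm_num

end Pool.Agent.H334R5.Ag
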