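import Pool.Agent.H334R5.Ag.Prob

/-!
# Plurality of many samples
-/

set_option autoImplicit false

namespace Pool.Agent.H334R5.Ag

/-- The answers for the blocks of random bits. -/
def answers (g : List Bool → ℕ) (b N : ℕ) (r : List Bool) : List ℕ :=
  (List.range N).map (fun i => g ((r.drop (i * b)).take b))

theorem answers_succ (g : List Bool → ℕ) (b N : ℕ) (r : List Bool) :
    answers g b (N + 1) r = g (r.take b) :: answers g b N (r.drop b) := by
  unfold answers
  rw [List.range_succ_eq_map, List.map_cons, List.map_map]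
  congr 1
  · simp
  · refine List.map_congr_left fun i _ => ?_
    simp only [Function.comp]
    rw [List.drop_drop]
    congr 3
    simp only [Nat.succ_eq_add_one]
    ring

/-- The number of occurrences. -/
def cnt (k : ℕ) (a : List ℕ) : ℕ := (a.filter (fun j => decide (j = k))).length

/-- The most frequent answer. -/
def winner (a : List ℕ) (m : ℕ) : ℕ :=
  (((List.range (m + 1)).filter (fun k =>
    (List.range (m + 1)).all (fun j => decide (cnt j a ≤ cnt k a)))).head?).getD 0

theorem winner_spec (a : List ℕ) (m : ℕ) :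
    winner a m ≤ m ∧ ∀ j ≤ m, cnt j a ≤ cnt (winner a m) a := by
  obtain ⟨k, hk, hmax⟩ := (Finset.range (m + 1)).exists_max_image (fun k => cnt k a)
    ⟨0, by simp⟩
  have hmem : k ∈ (List.range (m + 1)).filter (fun k =>
      (List.range (m + 1)).all (fun j => decide (cnt j a ≤ cnt k a))) := by
    rw [List.mem_filter]
    refine ⟨by simpa using hk, ?_⟩
    simp only [List.all_eq_true, List.mem_range, decide_eq_true_eq]
    intro j hj
    exact hmax j (by simpa using hj)
  unfold winner
  cases h : ((List.range (m + 1)).filter (fun k =>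
      (List.range (m + 1)).all (fun j => decide (cnt j a ≤ cnt k a)))).head? with
  | none =>
    rw [List.head?_eq_none_iff] at h
    rw [h] at hmem
    simp at hmem
  | some w =>
    have h1 := List.mem_of_mem_head? h
    rw [List.mem_filter] at h1
    simp only [List.mem_range, List.all_eq_true, decide_eq_true_eq] at h1
    simp only [Option.getD_some]
    exact ⟨by omega, fun j hj => h1.2 j (by omega)⟩

theorem cnt_answers (g : List Bool → ℕ) (b k : ℕ) : ∀ (N : ℕ) (r : List Bool),
    (cnt k (answers g b N r) : ℝ) = SS (fun r => ind (g r = k)) b N r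
  | 0, r => by simp [answers, cnt, SS]
  | N + 1, r => by
    rw [answers_succ, SS_succ, ← cnt_answers g b k N]
    unfold cnt
    by_cases h : g (r.take b) = k
    · rw [List.filter_cons_of_pos (by simp [h]), ind_true h]
      push_cast [List.length_cons]
      ring
    · rw [List.filter_cons_of_neg (by simp [h]), ind_false h]
      ring

theorem SS_sub (Y Z : List Bool → ℝ) (b : ℕ) : ∀ (N : ℕ) (r : List Bool),
    SS (fun r => Y r - Z r) b N r = SS Y b N r - SS Z b N r
  | 0, r => by simp [SS]
  | N + 1, r => by
    rw [SS_succ, SS_succ, SS_succ, SS_sub Y Z b N]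
    ring

/-- The plurality is unlikely to be an answer whose probability is smaller than the average. -/
theorem winner_prob {g : List Bool → ℕ} {m b : ℕ} (hg : ∀ r, g r ≤ m) {k : ℕ} {s : ℝ}
    (hs : 0 ≤ s) (hk : Prob b (fun r => g r = k) ≤ (1 - 1 / (s + 1)) / ((m : ℝ) + 1)) {N : ℕ}
    (hN : 0 < N) :
    Prob (N * b) (fun r => winner (answers g b N r) m = k) ≤
      ((s + 1) * ((m : ℝ) + 1)) ^ 2 / N := by
  -- an answer with at least average probability
  have hsum : ∑ j ∈ Finset.range (m + 1), Prob b (fun r => g r = j) = 1 := by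
    have h1 : ∑ j ∈ Finset.range (m + 1), Prob b (fun r => g r = j) =
        EE b (fun r => ∑ j ∈ Finset.range (m + 1), ind (g r = j)) := by
      rw [EE_sum]
      exact Finset.sum_congr rfl fun j _ => Prob_eq _ _
    rw [h1, ← EE_const 1 b]
    refine EE_congr fun r _ => ?_
    rw [Finset.sum_eq_single (g r)]
    · exact ind_true rfl
    · intro j _ hj
      exact ind_false (Ne.symm hj)
    · intro h
      exact absurd (Finset.mem_range.2 (Nat.lt_succ_of_le (hg r))) h
  obtain ⟨j, hj, hjp⟩ : ∃ j ∈ Finset.range (m + 1), 1 / ((m : ℝ) + 1) ≤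
      Prob b (fun r => g r = j) := by
    by_contra hcon
    push Not at hcon
    have h1 : ∑ j ∈ Finset.range (m + 1), Prob b (fun r => g r = j) <
        ∑ _j ∈ Finset.range (m + 1), 1 / ((m : ℝ) + 1) :=
      Finset.sum_lt_sum_of_nonempty ⟨0, by simp⟩ hcon
    rw [hsum, Finset.sum_const, Finset.card_range, nsmul_eq_mul] at h1
    push_cast at h1
    have h2 : ((m : ℝ) + 1) * (1 / ((m : ℝ) + 1)) = 1 := by
      have : (m : ℝ) + 1 ≠ 0 := by positivity
      field_simp
    linarith
  have hjm : j ≤ m := by
    have := Finset.mem_range.1 hj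
    omega
  have hγ : (0 : ℝ) < 1 / ((s + 1) * ((m : ℝ) + 1)) := by positivity
  have hμ : EE b (fun r => ind (g r = k) - ind (g r = j)) ≤ -(1 / ((s + 1) * ((m : ℝ) + 1))) := by
    rw [EE_sub, ← Prob_eq, ← Prob_eq]
    have h1 : (1 - 1 / (s + 1)) / ((m : ℝ) + 1) - 1 / ((m : ℝ) + 1) =
        -(1 / ((s + 1) * ((m : ℝ) + 1))) := by
      have h2 : (m : ℝ) + 1 ≠ 0 := by positivity
      have h3 : s + 1 ≠ 0 := by positivity
      field_simp
      ring
    linarith
  have hY : ∀ r, |ind (g r = k) - ind (g r = j)| ≤ 1 := by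
    intro r
    have h1 := ind_nonneg (g r = k)
    have h2 := ind_le_one (g r = k)
    have h3 := ind_nonneg (g r = j)
    have h4 := ind_le_one (g r = j)
    rw [abs_le]
    constructor <;> linarith
  have h5 := chebyshev hY hγ hμ hN
  have h6 : Prob (N * b) (fun r => winner (answers g b N r) m = k) ≤
      Prob (N * b) (fun r => 0 ≤ SS (fun r => ind (g r = k) - ind (g r = j)) b N r) := by
    refine Prob_mono fun r _ hw => ?_
    rw [SS_sub, ← cnt_answers, ← cnt_answers, sub_nonneg]
    have := (winner_spec (answers g b N r) m).2 j hjm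
    rw [hw] at this
    exact_mod_cast this
  refine h6.trans (h5.trans (le_of_eq ?_))
  have h2 : (m : ℝ) + 1 ≠ 0 := by positivity
  have h3 : s + 1 ≠ 0 := by positivity
  have h4 : (N : ℝ) ≠ 0 := by
    have : (0 : ℝ) < N := by exact_mod_cast hN
    exact this.ne'
  field_simp

end Pool.Agent.H334R5.Ag
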