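import Pool.Agent.H334R5.Ag.Defs
import Pool.Agent.H334R5.Ag.Plural
import Pool.Agent.H334R5.Clo.Alg

/-!
# The search for a witness
-/

set_option autoImplicit false

namespace Pool.Agent.H334R5.Ag

open Pool.Agent.NPC
open Pool.Agent.H251R5.PQ (Ver)
open Pool.Agent.H334R5.Clo (num ext Left)

/-- The queries. -/
def qry (f : List Bool → List Bool) (x : List Bool) (C : List (List Bool)) : List (List Bool) :=
  C.tail.map (fun u => f (bits (x, u)))

/-- One step of the search. -/
def stepC (f : List Bool → List Bool) (R : List (List Bool) → List Bool → ℕ) (ℓ : Polynomial ℕ)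
    (M N b : ℕ) (x : List Bool) (s : ℕ × List (List Bool)) (r : List Bool) :
    ℕ × List (List Bool) :=
  if M < s.2.length then
    (s.1, s.2.take (winner (answers (fun r' => R (qry f x s.2)
        (r'.take (ℓ.eval (bits (qry f x s.2)).length))) b N r) (qry f x s.2).length) ++
      s.2.drop (winner (answers (fun r' => R (qry f x s.2)
        (r'.take (ℓ.eval (bits (qry f x s.2)).length))) b N r) (qry f x s.2).length + 1))
  else if s.1 = 0 then s else (s.1 - 1, ext s.2)

/-- The shape of the state. -/
structure Shape (V : Ver) (x : List Bool) (M : ℕ) (s : ℕ × List (List Bool)) : Prop where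
  rem : s.1 ≤ V.n x
  len : ∀ u ∈ s.2, u.length = V.n x - s.1
  sorted : s.2.Pairwise (fun v w => num v < num w)
  short : s.2.length ≤ 2 * M

/-- The maximal witness is still below a node. -/
def Mem (V : Ver) (x : List Bool) (s : ℕ × List (List Bool)) : Prop :=
  ∀ w : List Bool, w.length = V.n x → V.V x w = true →
    (∀ w' : List Bool, w'.length = V.n x → V.V x w' = true → num w' ≤ num w) →
      w.take (V.n x - s.1) ∈ s.2

/-- The potential. -/
def pot (M : ℕ) (s : ℕ × List (List Bool)) : ℕ := s.1 * (M + 1) + s.2.length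

theorem length_remove {l : List (List Bool)} {k : ℕ} (hk : k < l.length) :
    (l.take k ++ l.drop (k + 1)).length + 1 = l.length := by
  rw [List.length_append, List.length_take, List.length_drop]
  omega

theorem remove_sublist (l : List (List Bool)) (k : ℕ) :
    (l.take k ++ l.drop (k + 1)).Sublist l := by
  have h : l.take k ++ l.drop k = l := List.take_append_drop k l
  conv_rhs => rw [← h]
  refine (List.Sublist.refl _).append ?_
  rw [← List.drop_drop]
  exact List.drop_sublist _ _

theorem qry_length (f : List Bool → List Bool) (x : List Bool) (C : List (List Bool)) :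
    (qry f x C).length = C.length - 1 := by
  unfold qry
  rw [List.length_map, List.length_tail]

variable {f : List Bool → List Bool} {R : List (List Bool) → List Bool → ℕ} {ℓ : Polynomial ℕ}
  {M N b : ℕ} {V : Ver} {x : List Bool}

theorem stepC_shape (hM : 1 ≤ M) {s : ℕ × List (List Bool)} (hs : Shape V x M s) (r : List Bool) :
    Shape V x M (stepC f R ℓ M N b x s r) := by
  unfold stepC
  split_ifs with h1 h2
  · set k := winner (answers (fun r' => R (qry f x s.2)
        (r'.take (ℓ.eval (bits (qry f x s.2)).length))) b N r) (qry f x s.2).length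
    have hsub := remove_sublist s.2 k
    exact ⟨hs.rem, fun u hu => hs.len u (hsub.subset hu), hs.sorted.sublist hsub,
      hsub.length_le.trans hs.short⟩
  · exact hs
  · have hr := hs.rem
    refine ⟨by simp only; omega, fun u hu => ?_, Clo.ext_sorted hs.sorted, ?_⟩
    · obtain ⟨v, hv, c, rfl⟩ := Clo.mem_ext.1 hu
      have := hs.len v hv
      simp only [List.length_append, List.length_cons, List.length_nil]
      omega
    · simp only
      rw [Clo.ext_length]
      omega

theorem stepC_pot {s : ℕ × List (List Bool)} (r : List Bool) :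
    (stepC f R ℓ M N b x s r = s ∧ s.1 = 0) ∨
      pot M (stepC f R ℓ M N b x s r) < pot M s := by
  unfold stepC
  split_ifs with h1 h2
  · right
    set k := winner (answers (fun r' => R (qry f x s.2)
        (r'.take (ℓ.eval (bits (qry f x s.2)).length))) b N r) (qry f x s.2).length with hk
    have hk1 : k ≤ (qry f x s.2).length := (winner_spec _ _).1
    rw [qry_length] at hk1
    have h3 := length_remove (l := s.2) (k := k) (by omega)
    unfold pot
    simp only
    omega
  · exact Or.inl ⟨rfl, h2⟩
  · right
    unfold pot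
    simp only
    rw [Clo.ext_length]
    have h3 : s.1 * (M + 1) = (s.1 - 1) * (M + 1) + (M + 1) := by
      obtain ⟨j, hj⟩ := Nat.exists_eq_succ_of_ne_zero h2
      rw [hj]
      simp only [Nat.succ_eq_add_one, Nat.add_sub_cancel]
      ring
    omega

theorem runF_shape (hM : 1 ≤ M) {β : ℕ} : ∀ (T : ℕ) (s : ℕ × List (List Bool)) (r : List Bool),
    Shape V x M s → Shape V x M (runF (stepC f R ℓ M N b x) β T s r)
  | 0, _, _, hs => hs
  | T + 1, s, r, hs => by
    rw [runF_succ]
    exact runF_shape hM T _ _ (stepC_shape hM hs _)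

theorem runF_rem {β : ℕ} : ∀ (T : ℕ) (s : ℕ × List (List Bool)) (r : List Bool),
    pot M s < T → (runF (stepC f R ℓ M N b x) β T s r).1 = 0
  | 0, _, _, h => absurd h (Nat.not_lt_zero _)
  | T + 1, s, r, h => by
    rw [runF_succ]
    have h0 : ∀ (T : ℕ) (s : ℕ × List (List Bool)) (r : List Bool), s.1 = 0 →
        (runF (stepC f R ℓ M N b x) β T s r).1 = 0 := by
      intro T
      induction T with
      | zero => intro s r hs; exact hs
      | succ T ih =>
        intro s r hs
        rw [runF_succ]
        refine ih _ _ ?_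
        unfold stepC
        split_ifs
        · exact hs
        · exact hs
    rcases stepC_pot (f := f) (R := R) (ℓ := ℓ) (M := M) (N := N) (b := b) (x := x) (s := s)
      (r.take β) with ⟨h1, h2⟩ | h1
    · rw [h1]
      exact h0 _ _ _ h2
    · exact runF_rem T _ _ (by omega)

/-- The probability that the maximal witness is lost in one step. -/
theorem stepC_good {A : Set (List Bool)} {q s' : Polynomial ℕ} (hR : AntiGuesser A q s' ℓ R)
    (hf : ∀ u, (f (bits (x, u)) ∈ A ↔ Left V (x, u))) {n : ℕ}
    (hn : ∀ u : List Bool, u.length ≤ V.n x → (f (bits (x, u))).length ≤ n)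
    (hq : q.eval n ≤ M) (hN : 0 < N) {B : ℕ}
    (hB : ∀ C : List (List Bool), (∀ u ∈ C, u.length ≤ V.n x) → C.length ≤ 2 * M →
      (bits (qry f x C)).length ≤ B) (hb : ℓ.eval B ≤ b)
    {s : ℕ × List (List Bool)} (hs : Shape V x M s) (hm : Mem V x s) :
    Prob (N * b) (fun r => ¬ Mem V x (stepC f R ℓ M N b x s r)) ≤
      ((((s'.eval B : ℕ) : ℝ) + 1) * (2 * M)) ^ 2 / N := by
  classical
  have hNR : (0 : ℝ) < N := by exact_mod_cast hN
  have hlenV : ∀ u ∈ s.2, u.length ≤ V.n x := fun u hu => by rw [hs.len u hu]; omega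
  have hpos : (0 : ℝ) ≤ ((((s'.eval B : ℕ) : ℝ) + 1) * (2 * M)) ^ 2 / N := by positivity
  have hzero : (∀ r, Mem V x (stepC f R ℓ M N b x s r)) →
      Prob (N * b) (fun r => ¬ Mem V x (stepC f R ℓ M N b x s r)) ≤
        ((((s'.eval B : ℕ) : ℝ) + 1) * (2 * M)) ^ 2 / N := by
    intro h
    refine le_trans ?_ hpos
    rw [Prob_eq, ← EE_const 0 (N * b)]
    exact EE_mono fun r _ => by rw [ind_false (not_not.2 (h r))]
  by_cases h1 : M < s.2.length
  swap
  · -- no pruning
    refine hzero fun r => ?_
    unfold stepC
    rw [if_neg h1]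
    split_ifs with h2
    · exact hm
    · intro w hw hV hmax
      have h3 := hm w hw hV hmax
      have hr := hs.rem
      simp only
      rw [Clo.mem_ext]
      refine ⟨_, h3, w[V.n x - s.1]'(by omega), ?_⟩
      rw [List.take_append_getElem]
      congr 1
      omega
  -- pruning
  by_cases hw0 : ∃ w : List Bool, w.length = V.n x ∧ V.V x w = true
  swap
  · refine hzero fun r w hw hV _ => ?_
    exact absurd ⟨w, hw, hV⟩ hw0
  obtain ⟨w, ⟨hw, hV⟩, hmax⟩ : ∃ w : List Bool, (w.length = V.n x ∧ V.V x w = true) ∧
      ∀ w' : List Bool, (w'.length = V.n x ∧ V.V x w' = true) → num w' ≤ num w := by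
    have hfinite : {w : List Bool | w.length = V.n x ∧ V.V x w = true}.Finite :=
      (List.finite_length_eq Bool (V.n x)).subset (fun w hw => hw.1)
    obtain ⟨w, hw, hmax⟩ := Set.exists_max_image _ num hfinite hw0
    exact ⟨w, hw, fun w' hw' => hmax w' hw'⟩
  have hmax' : ∀ w' : List Bool, w'.length = V.n x → V.V x w' = true → num w' ≤ num w :=
    fun w' h h' => hmax w' ⟨h, h'⟩
  have hmem := hm w hw hV hmax'
  set i := V.n x - s.1 with hi
  obtain ⟨k, hk, hkw⟩ := List.getElem_of_mem hmem
  set L := qry f x s.2 with hL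
  have hLlen : L.length = s.2.length - 1 := qry_length f x s.2
  have hleft : ∀ u : List Bool, u.length = i →
      (Left V (x, u) ↔ num u ≤ num (w.take i)) := by
    intro u hu
    constructor
    · rintro ⟨w', hw', hV', h1⟩
      simp only at hw' hV' h1
      rw [hu] at h1
      exact h1.trans (Clo.num_take_mono (by rw [hw, hw']) (hmax' w' hw' hV') i)
    · intro h1
      exact ⟨w, hw, hV, by rw [hu]; exact h1⟩
  have hsorted : ∀ (j j' : ℕ) (hj : j < s.2.length) (hj' : j' < s.2.length), j < j' →
      num s.2[j] < num s.2[j'] := fun j j' hj hj' h =>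
    List.pairwise_iff_getElem.1 hs.sorted j j' hj hj' h
  have hLget : ∀ (j : ℕ) (hj : j < L.length), L[j] = f (bits (x, s.2[j + 1]'(by omega))) := by
    intro j hj
    simp only [hL, qry, List.getElem_map, List.getElem_tail]
  have hpat : Pattern A L k := by
    refine ⟨by omega, fun y hy => ?_, fun y hy => ?_⟩
    · obtain ⟨j, hj, rfl⟩ := List.getElem_of_mem hy
      rw [List.length_take] at hj
      rw [List.getElem_take, hLget j (by omega), hf,
        hleft _ (hs.len _ (List.getElem_mem _)), ← hkw]
      rcases Nat.lt_or_ge (j + 1) k with h2 | h2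
      · exact (hsorted _ _ _ hk h2).le
      · have h3 : j + 1 = k := by omega
        simp only [h3, le_refl]
    · obtain ⟨j, hj, rfl⟩ := List.getElem_of_mem hy
      rw [List.length_drop] at hj
      rw [List.getElem_drop, hLget (k + j) (by omega), hf,
        hleft _ (hs.len _ (List.getElem_mem _)), ← hkw, not_le]
      exact hsorted _ _ hk _ (by omega)
  have hBL : (bits L).length ≤ B := hB s.2 hlenV hs.short
  have hbet := hR.better L n k (by
    intro y hy
    rw [hL, qry, List.mem_map] at hy
    obtain ⟨u, hu, rfl⟩ := hy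
    exact hn u (hlenV u (List.mem_of_mem_tail hu))) (hq.trans (by omega)) hpat
  have hlb : ℓ.eval (bits L).length ≤ b := (eval_mono ℓ hBL).trans hb
  have hbet' : Prob b (fun r => R L (r.take (ℓ.eval (bits L).length)) = k) ≤
      (1 - 1 / (((s'.eval (bits L).length : ℕ) : ℝ) + 1)) / ((L.length : ℝ) + 1) := by
    refine le_trans (le_of_eq ?_) hbet
    rw [Prob_eq, Prob_eq, ← EE_take hlb]
  have hwin := winner_prob (g := fun r => R L (r.take (ℓ.eval (bits L).length)))
    (fun r => hR.le L _) (Nat.cast_nonneg _) hbet' hN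
  have hfinal : Prob (N * b) (fun r => ¬ Mem V x (stepC f R ℓ M N b x s r)) ≤
      Prob (N * b) (fun r => winner (answers (fun r => R L (r.take (ℓ.eval (bits L).length)))
        b N r) L.length = k) := by
    refine Prob_mono fun r _ hbad => ?_
    by_contra hne
    apply hbad
    unfold stepC
    rw [if_pos h1]
    intro w2 hw2 hV2 hmax2
    have hww : w2 = w := Clo.num_inj (by rw [hw, hw2])
      (le_antisymm (hmax' w2 hw2 hV2) (hmax2 w hw hV))
    subst hww
    simp only
    rw [← hL, ← hi, ← hkw]
    set c := winner (answers (fun r => R L (r.take (ℓ.eval (bits L).length))) b N r) L.length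
    rw [List.mem_append]
    rcases Nat.lt_or_ge k c with h2 | h2
    · left
      rw [List.mem_take_iff_getElem]
      exact ⟨k, by omega, rfl⟩
    · right
      have h3 : c + 1 ≤ k := by omega
      rw [List.mem_drop_iff_getElem]
      exact ⟨k - (c + 1), by omega, by congr 1; omega⟩
  refine hfinal.trans (hwin.trans ?_)
  rw [div_le_div_iff_of_pos_right hNR]
  have e1 : ((s'.eval (bits L).length : ℕ) : ℝ) ≤ ((s'.eval B : ℕ) : ℝ) := by
    exact_mod_cast eval_mono s' hBL
  have e2 : (L.length : ℝ) + 1 ≤ 2 * M := by
    have : L.length + 1 ≤ 2 * M := by have := hs.short; omega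
    exact_mod_cast this
  gcongr

end Pool.Agent.H334R5.Ag
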